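import Pool.Agent.H57.LF.Defs

open MeasureTheory ProbabilityTheory unitInterval

namespace Pool.Agent.H57.LF

open Pool.Agent.H89.Perc

open Pool.Agent.Perc (Ex ind ind_of ind_of_not DD)

/-- Two-function OSSS inequality: `N` is an exploration which determines `A`, and `B ⊆ A`. -/
theorem osss_two {p : I} {s : Finset Edge} {A B : Set Config} (hA : LocalOn s A)
    (hB : LocalOn s B) (iB : Incr B) (hBA : B ⊆ A) (N : Rule)
    (hN : ∀ O C e, N O C = some e → e ∈ s ∧ e ∉ O ∧ e ∉ C)
    (hdet : ∀ ω ω' : Config, (∀ e ∈ queried N ω s.card, ω e = ω' e) → ω ∈ A → ω' ∈ A) :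
    Pr p B * (1 - Pr p A) ≤
      ∑ e ∈ s, Pr p {ω | e ∈ queried N ω s.card} * pivot p B e := by
  have hp0 : 0 ≤ (p : ℝ) := p.2.1
  have hp1 : (p : ℝ) ≤ 1 := p.2.2
  have hqs : ∀ S, qFrom N (ofS (∅ ∪ S)) s.card (∅, ∅) = queried N (ofS S) s.card := by
    intro S
    rw [Finset.empty_union]
    rfl
  have hq : ∀ (ω : Config) (n : ℕ), ∀ e ∈ queried N ω n, e ∈ s := by
    intro ω n
    have : ∀ (n : ℕ) (x : Finset Edge × Finset Edge), x.1 ⊆ s → x.2 ⊆ s →
        ((explStep N ω)^[n] x).1 ⊆ s ∧ ((explStep N ω)^[n] x).2 ⊆ s := by
      intro n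
      induction n with
      | zero => intro x h1 h2; exact ⟨h1, h2⟩
      | succ n ih =>
        intro x h1 h2
        rw [Function.iterate_succ_apply]
        apply ih
        · rcases hNe : N x.1 x.2 with _ | e
          · rw [explStep_none hNe]; exact h1
          · rcases ho : ω e with _ | _
            · rw [explStep_some_false hNe ho]; exact h1
            · rw [explStep_some_true hNe ho]
              exact Finset.insert_subset (hN _ _ _ hNe).1 h1
        · rcases hNe : N x.1 x.2 with _ | e
          · rw [explStep_none hNe]; exact h2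
          · rcases ho : ω e with _ | _
            · rw [explStep_some_false hNe ho]
              exact Finset.insert_subset (hN _ _ _ hNe).1 h2
            · rw [explStep_some_true hNe ho]; exact h2
    intro e he
    have h := this n (∅, ∅) (Finset.empty_subset _) (Finset.empty_subset _)
    rcases Finset.mem_union.1 he with h1 | h1
    · exact h.1 h1
    · exact h.2 h1
  have key := osss_cov (s := s) hp0 hp1 hN s.card ∅ ∅ s le_rfl (by simp) (by simp)
    (ind fun S => ofS S ∈ A) (ind fun S => ofS S ∈ B)
    (fun S _ => ⟨Pool.Agent.Perc.ind_nonneg _ _, Pool.Agent.Perc.ind_le_one _ _⟩)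
    (by
      intro S S' _ _ h
      refine Pool.Agent.Perc.ind_congr ?_
      have h1 : ∀ e ∈ queried N (ofS S) s.card, ofS S e = ofS S' e := by
        intro e he
        rw [ofS_apply, ofS_apply, decide_eq_decide]
        exact h e (by rw [hqs]; exact he) (hq _ _ e he)
      constructor
      · exact hdet _ _ h1
      · intro h2
        by_contra h3
        -- the queried sets agree
        have h4 : queried N (ofS S') s.card = queried N (ofS S) s.card := by
          have : ∀ (n : ℕ) (x : Finset Edge × Finset Edge),
              (∀ e ∈ qFrom N (ofS S) n x, e ∉ x.1 → e ∉ x.2 → ofS S e = ofS S' e) →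
              (explStep N (ofS S'))^[n] x = (explStep N (ofS S))^[n] x := by
            intro n
            induction n with
            | zero => intro x _; rfl
            | succ n ih =>
              intro x hx
              rw [Function.iterate_succ_apply, Function.iterate_succ_apply]
              rw [qFrom_succ] at hx
              have hstep : explStep N (ofS S') x = explStep N (ofS S) x := by
                rcases hNe : N x.1 x.2 with _ | e
                · rw [explStep_none hNe, explStep_none hNe]
                · obtain ⟨_, h5, h6⟩ := hN _ _ _ hNe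
                  have hmem : e ∈ qFrom N (ofS S) n (explStep N (ofS S) x) := by
                    unfold qFrom
                    rw [Finset.mem_union]
                    rcases ho : ofS S e with _ | _
                    · rw [explStep_some_false hNe ho]
                      exact Or.inr ((iterate_subset N _ n _).2 (Finset.mem_insert_self _ _))
                    · rw [explStep_some_true hNe ho]
                      exact Or.inl ((iterate_subset N _ n _).1 (Finset.mem_insert_self _ _))
                  have h7 := hx e hmem h5 h6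
                  rcases ho : ofS S e with _ | _
                  · rw [explStep_some_false hNe ho, explStep_some_false hNe (h7 ▸ ho)]
                  · rw [explStep_some_true hNe ho, explStep_some_true hNe (h7 ▸ ho)]
              rw [hstep]
              apply ih
              intro e he h5 h6
              have h7 := explStep_subset N (ofS S) x
              exact hx e he (fun h => h5 (h7.1 h)) (fun h => h6 (h7.2 h))
          unfold queried expl
          rw [this s.card (∅, ∅) (fun e he _ _ => h1 e he)]
        exact h3 (hdet _ _ (fun e he => (h1 e (h4 ▸ he)).symm) h2))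
  have hcov : Ex (p : ℝ) s (fun S => ind (fun S => ofS S ∈ A) S * ind (fun S => ofS S ∈ B) S) -
      Ex (p : ℝ) s (ind fun S => ofS S ∈ A) * Ex (p : ℝ) s (ind fun S => ofS S ∈ B) =
      Pr p B * (1 - Pr p A) := by
    rw [Pr_eq_Ex hA p, Pr_eq_Ex hB p]
    have : Ex (p : ℝ) s (fun S => ind (fun S => ofS S ∈ A) S * ind (fun S => ofS S ∈ B) S) =
        Ex (p : ℝ) s (ind fun S => ofS S ∈ B) := by
      refine Pool.Agent.Perc.Ex_congr fun S _ => ?_
      rw [Pool.Agent.Perc.ind_mul]
      exact Pool.Agent.Perc.ind_congr ⟨fun h => h.2, fun h => ⟨hBA h, h⟩⟩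
    rw [this]
    ring
  rw [hcov] at key
  refine (le_abs_self _).trans (key.trans ?_)
  refine Finset.sum_le_sum fun e he => ?_
  have h1 : Ex (p : ℝ) s (ind fun S => e ∈ qFrom N (ofS (∅ ∪ S)) s.card (∅, ∅)) =
      Pr p {ω | e ∈ queried N ω s.card} := by
    rw [Pr_eq_Ex (localOn_queried hN s.card e) p]
    refine Pool.Agent.Perc.Ex_congr fun S _ => ?_
    refine Pool.Agent.Perc.ind_congr ?_
    rw [hqs]
    rfl
  have h2 : Ex (p : ℝ) s (fun S => |DD e (ind fun S => ofS S ∈ B) S|) = pivot p B e := by
    rw [pivot_eq_Ex hB he]
    refine Pool.Agent.Perc.Ex_congr fun S _ => ?_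
    rw [abs_of_nonneg]
    unfold DD
    rw [sub_nonneg]
    refine Pool.Agent.Perc.ind_le_ind ?_
    intro h
    refine iB _ _ (ofS_mono ?_) h
    exact (Finset.erase_subset _ _).trans (Finset.subset_insert _ _)
  rw [h1, h2]
  have h3 : 0 ≤ Pr p {ω | e ∈ queried N ω s.card} := Pr_nonneg
  have h4 : 0 ≤ pivot p B e := by
    rw [← h2]
    exact Pool.Agent.Perc.Ex_nonneg hp0 hp1 fun S _ => abs_nonneg _
  have h5 : (p : ℝ) * (1 - p) ≤ 1 := by nlinarith [sq_nonneg ((p : ℝ) - 1 / 2)]
  calc Pr p {ω | e ∈ queried N ω s.card} * ((p : ℝ) * (1 - p)) * pivot p B e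
      = ((p : ℝ) * (1 - p)) * (Pr p {ω | e ∈ queried N ω s.card} * pivot p B e) := by ring
    _ ≤ 1 * (Pr p {ω | e ∈ queried N ω s.card} * pivot p B e) := by
        apply mul_le_mul_of_nonneg_right h5 (mul_nonneg h3 h4)
    _ = _ := one_mul _

end Pool.Agent.H57.LF
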