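import Pool.Agent.H89.Perc.OSSS
import Pool.Agent.H89.Perc.Duality
import Pool.Agent.H89.Perc.Symm
import Pool.Agent.H89.Perc.Circuit

/-!
# Log-free lower bound for the percolation probability: definitions
-/

open MeasureTheory ProbabilityTheory unitInterval

namespace Pool.Agent.H57.LF

open Pool.Agent.H89.Perc

/-- Average of the one-arm probabilities at the radii `0, …, m - 1`. -/
noncomputable def avgArm (p : I) (m : ℕ) : ℝ := (∑ k ∈ Finset.range m, arm p k) / m

end Pool.Agent.H57.LF
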