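import Pool.Agent.H57.LF.Defs

open MeasureTheory ProbabilityTheory unitInterval

namespace Pool.Agent.H57.LF

open Pool.Agent.H89.Perc

/-- a path across a horizontal strip inside a rectangle gives a vertical crossing -/
private theorem fs1_vert {ω : Config} {a b c d : ℤ} {u v : Vert}
    (h : Conn ω (rect a b c d) u v) {a' b' c' d' : ℤ} (hu : u.2 ≤ c') (hv : d' ≤ v.2)
    (hcd : c' ≤ d') (ha : a' ≤ a) (hb : b ≤ b') : VCross ω a' b' c' d' := by
  obtain ⟨u', v', h1, h2, h3, -, -⟩ := h.cross_y hu hv hcd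
  refine ⟨u', v', h1, h2, h3.mono_set ?_⟩
  intro w hw
  simp only [rect, Set.mem_inter_iff, Set.mem_ofPred_eq] at hw ⊢
  omega

private theorem fs1_hor {ω : Config} {a b c d : ℤ} {u v : Vert}
    (h : Conn ω (rect a b c d) u v) {a' b' c' d' : ℤ} (hu : u.1 ≤ a') (hv : b' ≤ v.1)
    (hab : a' ≤ b') (hc : c' ≤ c) (hd : d ≤ d') : HCross ω a' b' c' d' := by
  obtain ⟨u', v', h1, h2, h3, -, -⟩ := h.cross_x hu hv hab
  refine ⟨u', v', h1, h2, h3.mono_set ?_⟩
  intro w hw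
  simp only [rect, Set.mem_inter_iff, Set.mem_ofPred_eq] at hw ⊢
  omega

private theorem fs1_cover {m : ℕ} (hm : 1 ≤ m) :
    ArmBox 0 m (7 * m) ⊆
      ({ω | VCross ω (-(7 * m : ℤ)) (8 * m - 1) m (6 * m + 1)} ∪
        {ω | VCross ω (-(7 * m : ℤ)) (8 * m - 1) (-(6 * m : ℤ) - 1) (-(m : ℤ))}) ∪
      ({ω | HCross ω m (6 * m + 1) (-(7 * m : ℤ)) (8 * m - 1)} ∪
        {ω | HCross ω (-(6 * m : ℤ) - 1) (-(m : ℤ)) (-(7 * m : ℤ)) (8 * m - 1)}) := by
  rintro ω ⟨w, hw, u, hu, hc⟩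
  simp only [ball, rect, sphere, Set.mem_ofPred_eq, Prod.fst_zero, Prod.snd_zero] at hw hu
  push_cast at hw hu
  have hc' : Conn ω (rect (-(7 * m : ℤ)) (7 * m) (-(7 * m : ℤ)) (7 * m)) w u := by
    have : ball 0 (7 * m) = rect (-(7 * m : ℤ)) (7 * m) (-(7 * m : ℤ)) (7 * m) := by
      simp only [ball, Prod.fst_zero, Prod.snd_zero]
      push_cast
      ring_nf
    rwa [this] at hc
  obtain ⟨hw1, hw2, hw3, hw4⟩ := hw
  obtain ⟨-, h | h | h | h⟩ := hu
  · -- left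
    right; right
    exact fs1_hor hc'.symm (by omega) (by omega) (by omega) (by omega) (by omega)
  · -- right
    right; left
    exact fs1_hor hc' (by omega) (by omega) (by omega) (by omega) (by omega)
  · -- bottom
    left; right
    exact fs1_vert hc'.symm (by omega) (by omega) (by omega) (by omega) (by omega)
  · -- top
    left; left
    exact fs1_vert hc' (by omega) (by omega) (by omega) (by omega) (by omega)

theorem fs_annulus {p : I} {m : ℕ} (hm : 1 ≤ m) :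
    Pr (σ p) (ArmBox 0 m (7 * m)) ≤
      4 * (1 - Pr p {ω | HCross ω m (16 * m) (-m) (4 * m)}) := by
  set b : ℝ := Pr (σ p) {ω | VCross ω m (16 * m - 1) (-(m : ℤ) - 1) (4 * m)} with hb
  have hb1 : b ≤ 1 - Pr p {ω | HCross ω m (16 * m) (-m) (4 * m)} := by
    rw [hb, ← Pr_dual (localOn_vcross _ _ _ _), ← Pr_compl (localOn_hcross _ _ _ _)]
    refine Pr_mono ?_
    intro ω hω hω'
    exact not_hcross_and_dual_vcross (by omega) hω' hω
  have e1 : Pr (σ p) {ω | VCross ω (-(7 * m : ℤ)) (8 * m - 1) m (6 * m + 1)} = b := by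
    have := Pr_vcross_translate (p := σ p) (a := m) (b := 16 * m - 1) (c := -(m : ℤ) - 1)
      (d := 4 * m) (-(8 * m : ℤ)) (2 * m + 1)
    rw [hb, ← this]
    congr 2
    funext ω
    congr 1 <;> ring
  have e2 : Pr (σ p) {ω | VCross ω (-(7 * m : ℤ)) (8 * m - 1) (-(6 * m : ℤ) - 1) (-(m : ℤ))}
      = b := by
    have := Pr_vcross_translate (p := σ p) (a := m) (b := 16 * m - 1) (c := -(m : ℤ) - 1)
      (d := 4 * m) (-(8 * m : ℤ)) (-(5 * m : ℤ))
    rw [hb, ← this]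
    congr 2
    funext ω
    congr 1 <;> ring
  have e3 : Pr (σ p) {ω | HCross ω m (6 * m + 1) (-(7 * m : ℤ)) (8 * m - 1)} = b := by
    rw [← Pr_vcross_eq_hcross, e1]
  have e4 : Pr (σ p) {ω | HCross ω (-(6 * m : ℤ) - 1) (-(m : ℤ)) (-(7 * m : ℤ)) (8 * m - 1)}
      = b := by
    rw [← Pr_vcross_eq_hcross, e2]
  calc Pr (σ p) (ArmBox 0 m (7 * m)) ≤ _ := Pr_mono (fs1_cover hm)
    _ ≤ _ := Pr_union_le
    _ ≤ (b + b) + (b + b) := by
        refine add_le_add (Pr_union_le.trans ?_) (Pr_union_le.trans ?_)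
        · rw [e1, e2]
        · rw [e3, e4]
    _ = 4 * b := by ring
    _ ≤ _ := by linarith

end Pool.Agent.H57.LF
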