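import Pool.Agent.H57.LF.Defs

open MeasureTheory ProbabilityTheory unitInterval

namespace Pool.Agent.H57.LF

open Pool.Agent.H89.Perc

private lemma fs2_div {L : ℕ} (hL : 1 ≤ L) (x : ℤ) (K : ℤ) (h1 : -(K * L) ≤ x) (h2 : x ≤ K * L) :
    ∃ i : ℤ, -K ≤ i ∧ i ≤ K ∧ i * L ≤ x ∧ x < i * L + L := by
  have hL' : (0 : ℤ) < L := by exact_mod_cast hL
  refine ⟨x / L, ?_, ?_, ?_, ?_⟩
  · rw [Int.le_ediv_iff_mul_le hL']
    linarith
  · have : x / L < K + 1 := by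
      rw [Int.ediv_lt_iff_lt_mul hL']
      nlinarith
    omega
  · exact Int.ediv_mul_le x hL'.ne'
  · have := Int.lt_ediv_add_one_mul_self x hL'
    linarith

private lemma fs2_far {L : ℕ} (hL : 1 ≤ L) {x y i j : ℤ} (h1 : i * L ≤ x) (h2 : x < i * L + L)
    (h3 : j * L ≤ y) (h4 : y < j * L + L) (h : x + 18 * L ≤ y ∨ y + 18 * L ≤ x) :
    i + 15 ≤ j ∨ j + 15 ≤ i := by
  have hL' : (0 : ℤ) < L := by exact_mod_cast hL
  rcases h with h | h
  · left
    by_contra hc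
    push Not at hc
    have : (j + 1) * L ≤ (i + 15) * L := mul_le_mul_of_nonneg_right (by omega) hL'.le
    nlinarith
  · right
    by_contra hc
    push Not at hc
    have : (i + 1) * L ≤ (j + 15) * L := mul_le_mul_of_nonneg_right (by omega) hL'.le
    nlinarith

private lemma fs2_sep {L : ℕ} (hL : 1 ≤ L) {i j : ℤ} (h : i + 15 ≤ j ∨ j + 15 ≤ i) {x : ℤ}
    (h1 : i * L - (7 * L : ℕ) ≤ x) (h2 : x ≤ i * L + (7 * L : ℕ)) (h3 : j * L - (7 * L : ℕ) ≤ x)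
    (h4 : x ≤ j * L + (7 * L : ℕ)) : False := by
  have hL' : (0 : ℤ) < L := by exact_mod_cast hL
  push_cast at h1 h2 h3 h4
  rcases h with h | h
  · have : (i + 15) * L ≤ j * L := mul_le_mul_of_nonneg_right h hL'.le
    nlinarith
  · have : (j + 15) * L ≤ i * L := mul_le_mul_of_nonneg_right h hL'.le
    nlinarith

theorem fs_step {q : I} {L : ℕ} (hL : 1 ≤ L) :
    Pr q (ArmBox 0 (3 * L) (21 * L)) ≤ 10 ^ 8 * Pr q (ArmBox 0 L (7 * L)) ^ 2 := by
  classical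
  have hL' : (0 : ℤ) < L := by exact_mod_cast hL
  set F : Finset ((ℤ × ℤ) × (ℤ × ℤ)) :=
    ((Finset.Icc (-3) 3 ×ˢ Finset.Icc (-3) 3) ×ˢ (Finset.Icc (-21) 21 ×ˢ Finset.Icc (-21) 21)).filter
      (fun x => (x.1.1 + 15 ≤ x.2.1 ∨ x.2.1 + 15 ≤ x.1.1) ∨
        (x.1.2 + 15 ≤ x.2.2 ∨ x.2.2 + 15 ≤ x.1.2)) with hF
  set E : (ℤ × ℤ) × (ℤ × ℤ) → Set Config := fun x =>
    ArmBox (x.1.1 * L, x.1.2 * L) L (7 * L) ∩ ArmBox (x.2.1 * L, x.2.2 * L) L (7 * L) with hE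
  have hsub : ArmBox 0 (3 * L) (21 * L) ⊆ ⋃ x ∈ F, E x := by
    rintro ω ⟨w, hw, u, hu, hc⟩
    obtain ⟨w1, w2⟩ := w
    obtain ⟨u1, u2⟩ := u
    obtain ⟨hub, hus⟩ := hu
    simp only [mem_ball, Prod.fst_zero, Prod.snd_zero] at hw hub hus
    push_cast at hw hub hus
    obtain ⟨i, hi1, hi2, hi3, hi4⟩ := fs2_div hL w1 3 (by omega) (by omega)
    obtain ⟨j, hj1, hj2, hj3, hj4⟩ := fs2_div hL w2 3 (by omega) (by omega)
    obtain ⟨i', hi1', hi2', hi3', hi4'⟩ := fs2_div hL u1 21 (by omega) (by omega)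
    obtain ⟨j', hj1', hj2', hj3', hj4'⟩ := fs2_div hL u2 21 (by omega) (by omega)
    have hfar : (w1 + 18 * L ≤ u1 ∨ u1 + 18 * L ≤ w1) ∨ (w2 + 18 * L ≤ u2 ∨ u2 + 18 * L ≤ w2) := by
      omega
    simp only [Set.mem_iUnion]
    refine ⟨((i, j), (i', j')), ?_, ?_, ?_⟩
    · rw [hF]
      simp only [Finset.mem_filter, Finset.mem_product, Finset.mem_Icc]
      refine ⟨⟨⟨⟨hi1, hi2⟩, hj1, hj2⟩, ⟨hi1', hi2'⟩, hj1', hj2'⟩, ?_⟩
      rcases hfar with h | h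
      · exact Or.inl (fs2_far hL hi3 hi4 hi3' hi4' h)
      · exact Or.inr (fs2_far hL hj3 hj4 hj3' hj4' h)
    · obtain ⟨x, hx, hcx⟩ := hc.to_sphere (v := (i * L, j * L)) (r := 7 * L)
        (by
          simp only [mem_ball]
          push_cast
          omega)
        (by
          left
          simp only [mem_ball]
          push_cast
          omega)
      refine ⟨(w1, w2), ?_, x, hx, hcx.mono_set Set.inter_subset_right⟩
      simp only [mem_ball]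
      omega
    · obtain ⟨x, hx, hcx⟩ := hc.symm.to_sphere (v := (i' * L, j' * L)) (r := 7 * L)
        (by
          simp only [mem_ball]
          push_cast
          omega)
        (by
          left
          simp only [mem_ball]
          push_cast
          omega)
      refine ⟨(u1, u2), ?_, x, hx, hcx.mono_set Set.inter_subset_right⟩
      simp only [mem_ball]
      omega
  have hE' : ∀ x ∈ F, Pr q (E x) = Pr q (ArmBox 0 L (7 * L)) ^ 2 := by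
    intro x hx
    rw [hF, Finset.mem_filter] at hx
    have hx' := hx.2
    rw [hE]
    simp only
    rw [Pr_inter_of_disjoint (localOn_armBox _ _ _) (localOn_armBox _ _ _) ?_,
      Pr_armBox, Pr_armBox (x.2.1 * L, x.2.2 * L), sq]
    rw [Finset.disjoint_left]
    intro e h1 h2
    rw [mem_eRect] at h1 h2
    simp only [rect, Set.mem_ofPred_eq] at h1 h2
    rcases hx' with h | h
    · exact fs2_sep hL h h1.1 h1.2.1 h2.1 h2.2.1
    · exact fs2_sep hL h h1.2.2.1 h1.2.2.2 h2.2.2.1 h2.2.2.2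
  have hcard : (F.card : ℝ) ≤ 10 ^ 8 := by
    have h1 : F.card ≤ ((Finset.Icc (-3 : ℤ) 3 ×ˢ Finset.Icc (-3 : ℤ) 3) ×ˢ
        (Finset.Icc (-21 : ℤ) 21 ×ˢ Finset.Icc (-21 : ℤ) 21)).card := Finset.card_filter_le _ _
    have h2 : ((Finset.Icc (-3 : ℤ) 3 ×ˢ Finset.Icc (-3 : ℤ) 3) ×ˢ
        (Finset.Icc (-21 : ℤ) 21 ×ˢ Finset.Icc (-21 : ℤ) 21)).card = 90601 := by
      simp only [Finset.card_product, Int.card_Icc]
      rfl
    rw [h2] at h1
    have h3 : (F.card : ℝ) ≤ 90601 := by exact_mod_cast h1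
    linarith
  calc Pr q (ArmBox 0 (3 * L) (21 * L)) ≤ Pr q (⋃ x ∈ F, E x) := Pr_mono hsub
    _ ≤ ∑ x ∈ F, Pr q (E x) := Pr_biUnion_le _ _
    _ = F.card * Pr q (ArmBox 0 L (7 * L)) ^ 2 := by
        rw [Finset.sum_congr rfl hE', Finset.sum_const, nsmul_eq_mul]
    _ ≤ 10 ^ 8 * Pr q (ArmBox 0 L (7 * L)) ^ 2 := by gcongr

end Pool.Agent.H57.LF
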