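import Pool.Agent.H57.LF.FS2

open MeasureTheory ProbabilityTheory unitInterval

namespace Pool.Agent.H57.LF

open Pool.Agent.H89.Perc

private lemma fs3_mono {v : Vert} {s s' r r' : ℕ} (hs : s ≤ s') (hr : r' ≤ r) (hsr : s' ≤ r') :
    ArmBox v s r ⊆ ArmBox v s' r' := by
  rintro ω ⟨w, hw, u, hu, hc⟩
  have hws : w ∈ ball v s' := by
    simp only [mem_ball] at hw ⊢; omega
  have hwr : w ∈ ball v r' := by
    simp only [mem_ball] at hws ⊢; omega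
  obtain ⟨x, hx, hcx⟩ := hc.to_sphere (v := v) (r := r') hwr (by
    rcases Nat.lt_or_ge r' r with h | h
    · left
      intro hub
      have h1 := hu.2
      simp only [mem_ball] at hub
      omega
    · have : r = r' := le_antisymm h hr
      subst this
      exact Or.inr hu)
  exact ⟨w, hws, x, hx, hcx.mono_set Set.inter_subset_right⟩

private lemma fs3_iter {q : I} {L : ℕ} (hL : 1 ≤ L)
    (h0 : Pr q (ArmBox 0 L (7 * L)) ≤ 1 / (9 * 10 ^ 8)) (k : ℕ) :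
    10 ^ 8 * Pr q (ArmBox 0 (3 ^ k * L) (7 * (3 ^ k * L))) ≤ (1 / 9) ^ (k + 1) := by
  induction k with
  | zero =>
    simp only [pow_zero, one_mul, zero_add, pow_one]
    have : (1 : ℝ) / (9 * 10 ^ 8) = 1 / 10 ^ 8 * (1 / 9) := by norm_num
    rw [this] at h0
    have h1 : (10 : ℝ) ^ 8 * (1 / 10 ^ 8 * (1 / 9)) = 1 / 9 := by norm_num
    calc _ ≤ (10 : ℝ) ^ 8 * (1 / 10 ^ 8 * (1 / 9)) := by gcongr
      _ = 1 / 9 := h1
  | succ k ih =>
    have h1 := fs_step (q := q) (L := 3 ^ k * L) (Nat.mul_pos (by positivity) hL)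
    have e1 : 3 * (3 ^ k * L) = 3 ^ (k + 1) * L := by ring
    have e2 : 21 * (3 ^ k * L) = 7 * (3 ^ (k + 1) * L) := by ring
    rw [e1, e2] at h1
    set a := Pr q (ArmBox 0 (3 ^ k * L) (7 * (3 ^ k * L))) with ha
    have ha0 : 0 ≤ a := Pr_nonneg
    calc 10 ^ 8 * Pr q (ArmBox 0 (3 ^ (k + 1) * L) (7 * (3 ^ (k + 1) * L)))
        ≤ 10 ^ 8 * (10 ^ 8 * a ^ 2) := by gcongr
      _ = (10 ^ 8 * a) ^ 2 := by ring
      _ ≤ ((1 / 9) ^ (k + 1)) ^ 2 := by gcongr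
      _ = (1 / 9) ^ (2 * (k + 1)) := by rw [← pow_mul, mul_comm]
      _ ≤ (1 / 9) ^ (k + 1 + 1) := pow_le_pow_of_le_one (by norm_num) (by norm_num) (by omega)

private lemma fs3_term {q : I} {L : ℕ} (hL : 1 ≤ L)
    (h0 : Pr q (ArmBox 0 L (7 * L)) ≤ 1 / (9 * 10 ^ 8)) (i : ℕ) :
    10 ^ 8 * Pr q (ArmBox 0 L (max (i * L) (8 * L) - L)) ≤ 81 / ((i : ℝ) + 1) ^ 2 := by
  have hr : max (i * L) (8 * L) - L = (max i 8 - 1) * L := by
    rw [← max_mul_of_nonneg _ _ (Nat.zero_le L), Nat.sub_mul, one_mul]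
  set M := max i 8 - 1 with hM
  have hM7 : 7 ≤ M := by
    have := le_max_right i 8
    omega
  obtain ⟨k, hk1, hk2⟩ : ∃ k, 7 * 3 ^ k ≤ M ∧ M < 7 * 3 ^ (k + 1) := by
    have hn : M / 7 ≠ 0 := by omega
    refine ⟨Nat.log 3 (M / 7), ?_, ?_⟩
    · have := Nat.pow_log_le_self 3 hn
      omega
    · have := Nat.lt_pow_succ_log_self (b := 3) (by norm_num) (M / 7)
      rw [Nat.succ_eq_add_one] at this
      omega
  have h1 : Pr q (ArmBox 0 L (M * L)) ≤ Pr q (ArmBox 0 (3 ^ k * L) (7 * (3 ^ k * L))) := by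
    apply Pr_mono
    apply fs3_mono
    · exact Nat.le_mul_of_pos_left _ (by positivity)
    · rw [← mul_assoc]
      exact Nat.mul_le_mul_right _ hk1
    · omega
  have h2 := fs3_iter hL h0 k
  rw [hr]
  have h3 : ((i : ℝ) + 1) * 7 ≤ 9 * M := by
    have : (i + 1) * 7 ≤ 9 * M := by
      rcases le_total i 8 with h | h
      · omega
      · have : max i 8 = i := max_eq_left h
        omega
    exact_mod_cast this
  have h4 : (M : ℝ) ≤ 7 * 3 ^ (k + 1) := by exact_mod_cast hk2.le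
  have h5 : ((i : ℝ) + 1) ≤ 9 * 3 ^ (k + 1) := by linarith
  have h6 : (0 : ℝ) < (i : ℝ) + 1 := by positivity
  have h7 : ((1 : ℝ) / 9) ^ (k + 1) ≤ 81 / ((i : ℝ) + 1) ^ 2 := by
    rw [le_div_iff₀ (by positivity)]
    calc ((1 : ℝ) / 9) ^ (k + 1) * ((i : ℝ) + 1) ^ 2
        ≤ (1 / 9) ^ (k + 1) * (9 * 3 ^ (k + 1)) ^ 2 := by gcongr
      _ = 81 * ((1 / 9) ^ (k + 1) * (3 ^ 2) ^ (k + 1)) := by
          rw [mul_pow, ← pow_mul, mul_comm (k + 1) 2, pow_mul]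
          ring
      _ = 81 := by
          rw [← mul_pow]
          norm_num
  calc 10 ^ 8 * Pr q (ArmBox 0 L (M * L))
      ≤ 10 ^ 8 * Pr q (ArmBox 0 (3 ^ k * L) (7 * (3 ^ k * L))) := by gcongr
    _ ≤ (1 / 9) ^ (k + 1) := h2
    _ ≤ _ := h7

private lemma fs3_series (M : ℕ) :
    ∑ i ∈ Finset.range M, (81 : ℝ) / ((i : ℝ) + 1) ^ 2 ≤ 162 * (1 - 1 / ((M : ℝ) + 1)) := by
  induction M with
  | zero => simp
  | succ M ih =>
    rw [Finset.sum_range_succ]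
    have h1 : (0 : ℝ) < (M : ℝ) + 1 := by positivity
    have h2 : (81 : ℝ) / ((M : ℝ) + 1) ^ 2 ≤ 162 * (1 / ((M : ℝ) + 1) - 1 / ((M : ℝ) + 1 + 1)) := by
      rw [div_sub_div _ _ (by positivity) (by positivity), mul_div_assoc',
        div_le_div_iff₀ (by positivity) (by positivity)]
      have h3 : (0 : ℝ) ≤ M := Nat.cast_nonneg _
      nlinarith [mul_nonneg h3 h3, mul_nonneg (mul_nonneg h3 h3) h3]
    push_cast
    linarith

theorem fs_sum : ∃ ε > (0 : ℝ), ∃ K : ℕ, 2 ≤ K ∧ ∀ q : I, ∀ L : ℕ, 1 ≤ L →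
    Pr q (ArmBox 0 L (7 * L)) ≤ ε → ∀ M : ℕ,
    ∑ i ∈ Finset.range M, Pr q (ArmBox 0 L (max (i * L) (K * L) - L)) ≤ 1 / 2 := by
  refine ⟨1 / (9 * 10 ^ 8), by positivity, 8, by norm_num, fun q L hL h0 M => ?_⟩
  have h1 : 10 ^ 8 * ∑ i ∈ Finset.range M, Pr q (ArmBox 0 L (max (i * L) (8 * L) - L)) ≤ 162 := by
    rw [Finset.mul_sum]
    refine (Finset.sum_le_sum fun i _ => fs3_term hL h0 i).trans ?_
    refine (fs3_series M).trans ?_
    have : (0 : ℝ) ≤ 1 / ((M : ℝ) + 1) := by positivity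
    linarith
  linarith

end Pool.Agent.H57.LF
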