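import Pool.Agent.H57.LF.Defs
import Pool.Agent.H89.Perc.Surround

open MeasureTheory ProbabilityTheory unitInterval

namespace Pool.Agent.H57.LF

open Pool.Agent.H89.Perc

open Classical in
/-- The configuration with all edges inside the ball of radius `r` opened. -/
private noncomputable def fs4Open (ω : Config) (r : ℕ) : Config :=
  fun e => if src e ∈ ball 0 r ∧ tgt e ∈ ball 0 r then true else ω e

private lemma fs4Open_le (ω : Config) (r : ℕ) (e : Edge) (h : ω e = true) :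
    fs4Open ω r e = true := by
  unfold fs4Open
  split_ifs
  · rfl
  · exact h

private lemma fs4_path (ω : Config) (r : ℕ) :
    ∀ n : ℕ, n ≤ r → Conn (fs4Open ω r) (ball 0 r) 0 ((n : ℤ), 0) := by
  intro n
  induction n with
  | zero => exact fun _ => Conn.refl self_mem_ball
  | succ n ih =>
    intro h
    have h1 := ih (by omega)
    have hb : (((n : ℤ) + 1, 0) : Vert) ∈ ball 0 r := by
      simp only [mem_ball, Prod.fst_zero, Prod.snd_zero]
      omega
    have e1 : (((n + 1 : ℕ) : ℤ), (0 : ℤ)) = (((n : ℤ) + 1, 0) : Vert) := by push_cast; rfl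
    rw [e1]
    refine h1.tail ⟨h1.mem_right, hb, ((n : ℤ), 0, false), Or.inl ⟨rfl, ?_⟩, ?_⟩
    · simp [tgt]
    · unfold fs4Open
      rw [if_pos]
      refine ⟨h1.mem_right, ?_⟩
      simpa [tgt] using hb

private lemma fs4_back {ω : Config} {r M : ℕ} (hM : r < M) (h : fs4Open ω r ∈ Arm 0 M) :
    ω ∈ ArmBox 0 r M := by
  obtain ⟨u, hu, hc⟩ := h
  have hu' : u ∉ ball 0 r := by
    have h1 := hu.2
    simp only [mem_ball, Prod.fst_zero, Prod.snd_zero] at h1 ⊢
    omega
  obtain ⟨w, w', h1, h2, h3, h4⟩ := hc.exists_last (T := ball 0 r) self_mem_ball hu'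
  refine ⟨w, h1, u, hu, ?_⟩
  have hw' := h4.mem_left.2
  have h5 : Conn ω (ball 0 M \ ball 0 r) w' u := by
    refine h4.congr ?_
    intro e he _
    unfold fs4Open
    rw [if_neg]
    rintro ⟨h6, -⟩
    exact he.2 h6
  refine Conn.trans ?_ (h5.mono_set Set.sdiff_subset)
  refine Step.conn ⟨h3.1, h3.2.1, ?_⟩
  obtain ⟨-, -, e, he, ho⟩ := h3
  refine ⟨e, he, ?_⟩
  unfold fs4Open at ho
  rw [if_neg] at ho
  · exact ho
  · rintro ⟨h6, h7⟩
    rcases he with ⟨h8, h9⟩ | ⟨h8, h9⟩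
    · exact hw' (h9 ▸ h7)
    · exact hw' (h9 ▸ h6)

private lemma fs4_arm {ω : Config} {j R L : ℕ} (hL : 1 ≤ L) (hLR : L ≤ R)
    (h : ω ∈ Arm ((j : ℤ), 0) (max j R)) :
    ω ∈ ArmBox (((j / L * L : ℕ) : ℤ), 0) L (max (j / L * L) R - L) := by
  have hj1 : j / L * L ≤ j := Nat.div_mul_le_self j L
  have hj2 : j < j / L * L + L := Nat.lt_div_mul_add hL
  set k := j / L * L with hk
  set r := max k R - L with hr
  have hrL : (r : ℤ) = max (k : ℤ) R - L := by
    rw [hr]
    push_cast [Nat.cast_sub (hLR.trans (le_max_right k R))]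
    rfl
  by_cases hrl : r ≤ L
  · refine ⟨((k : ℤ) + r, 0), ?_, ((k : ℤ) + r, 0), ⟨?_, Or.inr (Or.inl rfl)⟩, Conn.refl ?_⟩
    · simp only [mem_ball]; omega
    · simp only [mem_ball]; omega
    · simp only [mem_ball]; omega
  · push Not at hrl
    obtain ⟨u, hu, hc⟩ := h
    obtain ⟨hub, hus⟩ := hu
    obtain ⟨x, hx, hcx⟩ := hc.to_sphere (v := ((k : ℤ), 0)) (r := r)
      (by simp only [mem_ball]; omega)
      (by
        by_cases hub' : u ∈ ball ((k : ℤ), 0) r
        · right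
          refine ⟨hub', ?_⟩
          simp only [mem_ball] at hub hub'
          simp only at hus ⊢
          push_cast at hub hus
          omega
        · exact Or.inl hub')
    refine ⟨((j : ℤ), 0), ?_, x, hx, hcx.mono_set Set.inter_subset_right⟩
    simp only [mem_ball]; omega

theorem armBox_ge {p : I} {R M L : ℕ} (hL : 1 ≤ L) (hLR : L ≤ R) (hM : 2 * R < M) :
    1 - Pr p (ArmBox 0 (2 * R) M) ≤
      ∑ i ∈ Finset.range M, Pr (σ p) (ArmBox 0 L (max (i * L) R - L)) := by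
  have hsub : (ArmBox 0 (2 * R) M)ᶜ ⊆
      ⋃ i ∈ Finset.range M, {ω | dual ω ∈ ArmBox (((i * L : ℕ) : ℤ), 0) L (max (i * L) R - L)} := by
    intro ω hω
    have h1 : fs4Open ω (2 * R) ∈ Arm 0 (2 * R) := by
      refine ⟨(((2 * R : ℕ) : ℤ), 0), ⟨?_, Or.inr (Or.inl (by simp))⟩, fs4_path ω (2 * R) _ le_rfl⟩
      simp only [mem_ball, Prod.fst_zero, Prod.snd_zero]
      omega
    have h2 : fs4Open ω (2 * R) ∉ Arm 0 M := fun h => hω (fs4_back hM h)
    obtain ⟨j, hj, hj'⟩ := surround (hL.trans hLR) hM h1 h2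
    simp only [Set.mem_iUnion]
    refine ⟨j / L, Finset.mem_range.2 (lt_of_le_of_lt (Nat.div_le_self j L) hj), ?_⟩
    refine fs4_arm hL hLR (incr_arm _ _ _ _ (fun e he => ?_) hj')
    simp only [dual, Bool.not_eq_true'] at he ⊢
    by_contra hc
    rw [Bool.not_eq_false] at hc
    rw [fs4Open_le ω (2 * R) _ hc] at he
    exact absurd he (by decide)
  rw [← Pr_compl (localOn_armBox 0 (2 * R) M)]
  calc Pr p (ArmBox 0 (2 * R) M)ᶜ ≤ _ := Pr_mono hsub
    _ ≤ ∑ i ∈ Finset.range M,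
        Pr p {ω | dual ω ∈ ArmBox (((i * L : ℕ) : ℤ), 0) L (max (i * L) R - L)} :=
      Pr_biUnion_le _ _
    _ = _ := by
      refine Finset.sum_congr rfl fun i _ => ?_
      rw [Pr_dual (localOn_armBox _ _ _), Pr_armBox]

end Pool.Agent.H57.LF
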