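import Pool.Agent.H57.LF.Main
import Pool.Agent.H57.LF.FS1
import Pool.Agent.H57.LF.FS3
import Pool.Agent.H57.LF.FS4
import Pool.Agent.H89.Perc.ArmExt
import Pool.Agent.H89.Perc.ThetaLimit

/-!
# The lower bound `θ(p) ≥ c √(p - 1/2)`
-/

open MeasureTheory ProbabilityTheory unitInterval Filter Topology

namespace Pool.Agent.H57.LF

open Pool.Agent.H89.Perc

/-- Finite-size criterion. -/
theorem fs : ∃ ε > (0 : ℝ), ∃ c > (0 : ℝ), ∀ p : I, half ≤ p → ∀ m : ℕ, 1 ≤ m →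
    1 - ε ≤ Pr p {ω | HCross ω m (16 * m) (-m) (4 * m)} → c * arm p m ≤ theta p := by
  classical
  obtain ⟨ε, hε, K, hK, hsum⟩ := fs_sum
  obtain ⟨c1, hc1, H1⟩ := circuit
  obtain ⟨c2, hc2, H2⟩ := arm_ext
  refine ⟨ε / 4, by positivity, c2 * Real.sqrt (1 / (8 * K + 4)) * (1 / 2) * c1, by positivity,
    fun p hp m hm hF => ?_⟩
  have hm0 : (0 : ℝ) < m := by exact_mod_cast hm
  have h1 := fs_annulus (p := p) hm
  have h2 : Pr (σ p) (ArmBox 0 m (7 * m)) ≤ ε := by linarith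
  have h3 := hsum (σ p) m hm h2
  have hKm : m ≤ K * m := Nat.le_mul_of_pos_left m (by omega)
  set s : ℕ := 2 * (K * m) with hs
  set r : ℕ := 4 * (s + 1) with hr
  have h4 : ∀ M : ℕ, s < M → 1 / 2 ≤ Pr p (ArmBox 0 s M) := by
    intro M hM
    have h5 := armBox_ge (p := p) hm hKm (M := M) hM
    have h6 := h3 M
    linarith
  have hs1 : 1 ≤ s := by rw [hs]; omega
  have h5 := H1 s r hs1 (by omega) p hp
  have h6 : c2 * Real.sqrt (1 / (8 * K + 4)) * arm p m ≤ arm p r := by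
    have h7 := H2 p hp m r hm (by omega)
    refine le_trans ?_ h7
    refine mul_le_mul_of_nonneg_right ?_ arm_nonneg
    refine mul_le_mul_of_nonneg_left ?_ hc2.le
    apply Real.sqrt_le_sqrt
    have hr0 : (0 : ℝ) < r := by
      have : 0 < r := by omega
      exact_mod_cast this
    rw [div_le_div_iff₀ (by positivity) hr0, one_mul]
    have : (r : ℝ) = 8 * (K * m) + 4 := by rw [hr, hs]; push_cast; ring
    rw [this]
    have hm1 : (1 : ℝ) ≤ m := by exact_mod_cast hm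
    nlinarith
  refine ge_of_tendsto (tendsto_arm p) ?_
  filter_upwards [eventually_ge_atTop r] with M hM
  have f1 : Pr p (Arm 0 r) * Pr p (ArmBox 0 s M) ≤ Pr p (Arm 0 r ∩ ArmBox 0 s M) :=
    fkg (localOn_arm 0 r) (localOn_armBox 0 s M) (incr_arm 0 r) (incr_armBox 0 s M)
  have f2 : Pr p (Arm 0 r ∩ ArmBox 0 s M) * Pr p {ω | dual ω ∉ DArm s r} ≤
      Pr p ((Arm 0 r ∩ ArmBox 0 s M) ∩ {ω | dual ω ∉ DArm s r}) :=
    fkg ((localOn_arm 0 r).inter' (localOn_armBox 0 s M)) (localOn_dual_DArm s r)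
      ((incr_arm 0 r).inter (incr_armBox 0 s M)) (incr_dual_DArm s r)
  have f3 : Pr p ((Arm 0 r ∩ ArmBox 0 s M) ∩ {ω | dual ω ∉ DArm s r}) ≤ arm p M := by
    refine Pr_mono ?_
    rintro ω ⟨⟨g1, g2⟩, g3⟩
    exact glue (by omega) hM g1 g2 g3
  have g0 : 0 ≤ arm p r := arm_nonneg
  have g1 : arm p r * (1 / 2) ≤ Pr p (Arm 0 r ∩ ArmBox 0 s M) :=
    (mul_le_mul_of_nonneg_left (h4 M (by omega)) g0).trans f1
  calc c2 * Real.sqrt (1 / (8 * K + 4)) * (1 / 2) * c1 * arm p m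
      = (c2 * Real.sqrt (1 / (8 * K + 4)) * arm p m) * (1 / 2) * c1 := by ring
    _ ≤ arm p r * (1 / 2) * c1 := by
        refine mul_le_mul_of_nonneg_right (mul_le_mul_of_nonneg_right h6 (by norm_num)) hc1.le
    _ ≤ Pr p (Arm 0 r ∩ ArmBox 0 s M) * Pr p {ω | dual ω ∉ DArm s r} :=
        mul_le_mul g1 h5 hc1.le Pr_nonneg
    _ ≤ _ := f2.trans f3

private lemma sum_inv_sqrt (n : ℕ) :
    ∑ k ∈ Finset.range n, 1 / Real.sqrt ((k : ℝ) + 1) ≤ 2 * Real.sqrt n := by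
  induction n with
  | zero => simp
  | succ n ih =>
    rw [Finset.sum_range_succ]
    have h0 : 0 ≤ Real.sqrt (n : ℝ) := Real.sqrt_nonneg _
    have h1 : 0 < Real.sqrt ((n : ℝ) + 1) := Real.sqrt_pos.2 (by positivity)
    have h2 : Real.sqrt ((n : ℝ) + 1) ^ 2 = n + 1 := Real.sq_sqrt (by positivity)
    have h3 : Real.sqrt (n : ℝ) ^ 2 = n := Real.sq_sqrt (by positivity)
    have h4 : 1 / Real.sqrt ((n : ℝ) + 1) ≤
        2 * (Real.sqrt ((n : ℝ) + 1) - Real.sqrt (n : ℝ)) := by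
      rw [div_le_iff₀ h1]
      nlinarith [sq_nonneg (Real.sqrt ((n : ℝ) + 1) - Real.sqrt (n : ℝ))]
    push_cast
    linarith

private lemma arm_one_lower : ∃ c > (0 : ℝ), ∀ p : I, half ≤ p → c ≤ arm p 1 := by
  obtain ⟨c2, hc2, H2⟩ := armBox_lower
  refine ⟨c2, hc2, fun p hp => ?_⟩
  have h1 := H2 0 1 le_rfl (by norm_num)
  have h2 : ArmBox 0 0 1 ⊆ Arm 0 1 := by
    rintro ω ⟨w, hw, u, hu, hc⟩
    have hw0 : w = 0 := by
      have h0 : ((0 : Vert).1) = 0 := rfl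
      have h1 : ((0 : Vert).2) = 0 := rfl
      simp only [mem_ball, h0, h1] at hw
      ext
      · rw [h0]; omega
      · rw [h1]; omega
    subst hw0
    exact ⟨u, hu, hc⟩
  have h3 : Pr half (ArmBox 0 0 1) ≤ arm half 1 := Pr_mono h2
  have h4 := arm_mono_param 1 hp
  have h5 : Real.sqrt (((0 : ℕ) + 1 : ℝ) / ((1 : ℕ) : ℝ)) = 1 := by norm_num
  rw [h5] at h1
  linarith

/-- The average of the one-arm probabilities is comparable to the last one. -/
theorem avg_le : ∃ C > (0 : ℝ), ∀ p : I, half ≤ p → ∀ m : ℕ, 1 ≤ m →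
    avgArm p m ≤ C * arm p m := by
  obtain ⟨c, hc, H⟩ := arm_ext
  obtain ⟨c1, hc1, H1⟩ := arm_one_lower
  refine ⟨(1 / c1 + 2) / c, by positivity, fun p hp m hm => ?_⟩
  have hm0 : (0 : ℝ) < m := by exact_mod_cast hm
  have hsm : 0 < Real.sqrt (m : ℝ) := Real.sqrt_pos.2 hm0
  have hsm2 : Real.sqrt (m : ℝ) ^ 2 = m := Real.sq_sqrt hm0.le
  have hsm1 : 1 ≤ Real.sqrt (m : ℝ) := by
    rw [show (1 : ℝ) = Real.sqrt 1 by simp]
    exact Real.sqrt_le_sqrt (by exact_mod_cast hm)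
  -- single terms
  have hk : ∀ k : ℕ, 1 ≤ k → k ≤ m →
      arm p k ≤ (arm p m / c) * (Real.sqrt m * (1 / Real.sqrt k)) := by
    intro k hk hkm
    have h1 := H p hp k m hk hkm
    have hk0 : (0 : ℝ) < k := by exact_mod_cast hk
    have hsk : 0 < Real.sqrt (k : ℝ) := Real.sqrt_pos.2 hk0
    rw [Real.sqrt_div hk0.le] at h1
    have : (arm p m / c) * (Real.sqrt m * (1 / Real.sqrt k)) =
        arm p m / (c * (Real.sqrt k / Real.sqrt m)) := by
      field_simp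
    rw [this, le_div_iff₀ (by positivity)]
    linarith
  have h0 : arm p 0 ≤ (1 / c1) * ((arm p m / c) * Real.sqrt m) := by
    have h1 := hk 1 le_rfl hm
    simp only [Nat.cast_one, Real.sqrt_one, div_one, mul_one] at h1
    rw [arm_zero]
    have h2 := H1 p hp
    rw [one_div, ← div_eq_inv_mul, le_div_iff₀ hc1, one_mul]
    linarith
  have hsum : ∑ k ∈ Finset.range m, arm p k ≤ (1 / c1 + 2) * (arm p m / c) * m := by
    obtain ⟨n, rfl⟩ : ∃ n, m = n + 1 := ⟨m - 1, by omega⟩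
    rw [Finset.sum_range_succ']
    have h1 : ∑ k ∈ Finset.range n, arm p (k + 1) ≤
        ∑ k ∈ Finset.range n, (arm p (n + 1) / c) *
          (Real.sqrt ((n + 1 : ℕ) : ℝ) * (1 / Real.sqrt ((k : ℝ) + 1))) := by
      refine Finset.sum_le_sum fun k hk' => ?_
      have := hk (k + 1) (by omega) (by have := Finset.mem_range.1 hk'; omega)
      simpa using this
    rw [← Finset.mul_sum, ← Finset.mul_sum] at h1
    have h2 := sum_inv_sqrt n
    have h3 : Real.sqrt (n : ℝ) ≤ Real.sqrt ((n + 1 : ℕ) : ℝ) :=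
      Real.sqrt_le_sqrt (by push_cast; linarith)
    have ha : 0 ≤ arm p (n + 1) / c := div_nonneg arm_nonneg hc.le
    set S := Real.sqrt ((n + 1 : ℕ) : ℝ) with hS
    have h4 : (arm p (n + 1) / c) * (S * ∑ k ∈ Finset.range n, 1 / Real.sqrt ((k : ℝ) + 1)) ≤
        (arm p (n + 1) / c) * (2 * ((n + 1 : ℕ) : ℝ)) := by
      refine mul_le_mul_of_nonneg_left ?_ ha
      rw [← hsm2]
      nlinarith
    have h5 : (1 / c1) * ((arm p (n + 1) / c) * S) ≤
        (1 / c1) * ((arm p (n + 1) / c) * ((n + 1 : ℕ) : ℝ)) := by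
      refine mul_le_mul_of_nonneg_left (mul_le_mul_of_nonneg_left ?_ ha) (by positivity)
      rw [← hsm2]
      nlinarith
    linarith
  have hav : avgArm p m = (∑ k ∈ Finset.range m, arm p k) / m := rfl
  rw [hav, div_le_iff₀ hm0]
  refine hsum.trans (le_of_eq ?_)
  ring

/-- **Main theorem.** -/
theorem theta_ge : ∃ c > (0 : ℝ), ∀ p : I, half ≤ p →
    c * Real.sqrt ((p : ℝ) - 1 / 2) ≤ theta p := by
  obtain ⟨ε, hε, c1, hc1, H1⟩ := fs
  obtain ⟨c2, hc2, H2⟩ := main_ineq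
  obtain ⟨C, hC, H3⟩ := avg_le
  obtain ⟨c4, hc4, H4⟩ := arm_ext
  obtain ⟨c5, hc5, H5⟩ := arm_one_lower
  set δ : ℝ := Real.sqrt (c2 * ε) / C with hδ
  have hδ0 : 0 < δ := by positivity
  -- if the crossing probability is not close to one, the one-arm probability is large
  have key : ∀ p : I, half ≤ p → ∀ m : ℕ, 1 ≤ m →
      ¬ (1 - ε ≤ Pr p {ω | HCross ω m (16 * m) (-m) (4 * m)}) →
      δ * Real.sqrt ((p : ℝ) - 1 / 2) ≤ arm p m := by
    intro p hp m hm hn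
    push Not at hn
    have hp' : 0 ≤ (p : ℝ) - 1 / 2 := by
      have : (1 / 2 : ℝ) ≤ p := hp
      linarith
    have h1 := H2 p hp m hm
    have h2 : c2 * ε * ((p : ℝ) - 1 / 2) ≤ avgArm p m ^ 2 := by
      refine le_trans ?_ h1
      have : ε ≤ 1 - Pr p {ω | HCross ω m (16 * m) (-m) (4 * m)} := by linarith
      have h3 : c2 * ((p : ℝ) - 1 / 2) * ε ≤ c2 * ((p : ℝ) - 1 / 2) *
          (1 - Pr p {ω | HCross ω m (16 * m) (-m) (4 * m)}) :=
        mul_le_mul_of_nonneg_left this (by positivity)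
      linarith
    have h3 : Real.sqrt (c2 * ε) * Real.sqrt ((p : ℝ) - 1 / 2) ≤ avgArm p m := by
      rw [← Real.sqrt_mul (by positivity)]
      exact Real.sqrt_le_iff.2 ⟨avgArm_nonneg p m, h2⟩
    have h4 := H3 p hp m hm
    rw [hδ, div_mul_eq_mul_div, div_le_iff₀ hC]
    linarith
  refine ⟨min (c1 * c5) (min (c1 * (c4 * Real.sqrt (1 / 2) * δ)) δ), by positivity,
    fun p hp => ?_⟩
  have hp' : 0 ≤ (p : ℝ) - 1 / 2 := by
    have : (1 / 2 : ℝ) ≤ p := hp
    linarith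
  have hsq0 : 0 ≤ Real.sqrt ((p : ℝ) - 1 / 2) := Real.sqrt_nonneg _
  have hsq1 : Real.sqrt ((p : ℝ) - 1 / 2) ≤ 1 := by
    rw [Real.sqrt_le_one]
    linarith [p.2.2]
  by_cases hex : ∃ m : ℕ, 1 ≤ m ∧ 1 - ε ≤ Pr p {ω | HCross ω m (16 * m) (-m) (4 * m)}
  · classical
    set m := Nat.find hex with hm
    obtain ⟨hm1, hmF⟩ := Nat.find_spec hex
    rw [← hm] at hm1 hmF
    have h1 := H1 p hp m hm1 hmF
    rcases Nat.lt_or_ge m 2 with hm2 | hm2
    · have hm' : m = 1 := by omega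
      rw [hm'] at h1
      have h2 := H5 p hp
      calc min (c1 * c5) (min (c1 * (c4 * Real.sqrt (1 / 2) * δ)) δ) *
            Real.sqrt ((p : ℝ) - 1 / 2) ≤ (c1 * c5) * 1 :=
            mul_le_mul (min_le_left _ _) hsq1 hsq0 (by positivity)
        _ ≤ c1 * arm p 1 := by rw [mul_one]; exact mul_le_mul_of_nonneg_left h2 hc1.le
        _ ≤ _ := h1
    · have hn : ¬ (1 - ε ≤ Pr p {ω | HCross ω ((m - 1 : ℕ) : ℤ) (16 * ((m - 1 : ℕ) : ℤ))
          (-((m - 1 : ℕ) : ℤ)) (4 * ((m - 1 : ℕ) : ℤ))}) := by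
        intro h
        exact Nat.find_min hex (m := m - 1) (by omega) ⟨by omega, h⟩
      have h2 := key p hp (m - 1) (by omega) hn
      have h3 := H4 p hp (m - 1) m (by omega) (by omega)
      have h4 : Real.sqrt (1 / 2) ≤ Real.sqrt (((m - 1 : ℕ) : ℝ) / m) := by
        apply Real.sqrt_le_sqrt
        have hm0 : (0 : ℝ) < m := by
          have : 0 < m := by omega
          exact_mod_cast this
        rw [div_le_div_iff₀ (by norm_num) hm0]
        have : ((m - 1 : ℕ) : ℝ) = m - 1 := by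
          rw [Nat.cast_sub (by omega)]; simp
        rw [this]
        have : (2 : ℝ) ≤ m := by exact_mod_cast hm2
        linarith
      have h5 : c4 * Real.sqrt (1 / 2) * (δ * Real.sqrt ((p : ℝ) - 1 / 2)) ≤ arm p m := by
        refine le_trans ?_ h3
        refine mul_le_mul (mul_le_mul_of_nonneg_left h4 hc4.le) h2 (by positivity) (by positivity)
      calc min (c1 * c5) (min (c1 * (c4 * Real.sqrt (1 / 2) * δ)) δ) *
            Real.sqrt ((p : ℝ) - 1 / 2) ≤ (c1 * (c4 * Real.sqrt (1 / 2) * δ)) *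
              Real.sqrt ((p : ℝ) - 1 / 2) :=
            mul_le_mul_of_nonneg_right ((min_le_right _ _).trans (min_le_left _ _)) hsq0
        _ = c1 * (c4 * Real.sqrt (1 / 2) * (δ * Real.sqrt ((p : ℝ) - 1 / 2))) := by ring
        _ ≤ c1 * arm p m := mul_le_mul_of_nonneg_left h5 hc1.le
        _ ≤ _ := h1
  · push Not at hex
    have h1 : ∀ m : ℕ, 1 ≤ m → δ * Real.sqrt ((p : ℝ) - 1 / 2) ≤ arm p m := fun m hm =>
      key p hp m hm (not_le.2 (hex m hm))
    have h2 : δ * Real.sqrt ((p : ℝ) - 1 / 2) ≤ theta p := by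
      refine ge_of_tendsto (tendsto_arm p) ?_
      filter_upwards [eventually_ge_atTop 1] with M hM
      exact h1 M hM
    refine le_trans (mul_le_mul_of_nonneg_right ?_ hsq0) h2
    exact (min_le_right _ _).trans (min_le_right _ _)

end Pool.Agent.H57.LF
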