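import Pool.Agent.H57.LF.Rule
import Pool.Agent.H57.LF.Cov
import Pool.Agent.H89.Perc.Russo
import Pool.Agent.H89.Perc.RSW

/-!
# The main inequality: averaging the two-function OSSS inequality over the corner
-/

open MeasureTheory ProbabilityTheory unitInterval

namespace Pool.Agent.H57.LF

open Pool.Agent.H89.Perc

/-- Pivotality vanishes off the support. -/
private lemma pivot_zero {q : I} {s : Finset Edge} {A : Set Config} (hA : LocalOn s A) {e : Edge}
    (he : e ∉ s) : pivot q A e = 0 := by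
  have : {ω : Config | Function.update ω e true ∈ A} = {ω | Function.update ω e false ∈ A} := by
    ext ω
    constructor
    · intro h
      refine hA _ _ (fun e' he' => ?_) h
      have : e' ≠ e := fun h => he (h ▸ he')
      rw [Function.update_of_ne this, Function.update_of_ne this]
    · intro h
      refine hA _ _ (fun e' he' => ?_) h
      have : e' ≠ e := fun h => he (h ▸ he')
      rw [Function.update_of_ne this, Function.update_of_ne this]
  unfold pivot
  rw [this]
  ring

private lemma pivot_nonneg {q : I} {A : Set Config} (iA : Incr A) (e : Edge) :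
    0 ≤ pivot q A e := by
  unfold pivot
  rw [sub_nonneg]
  refine Pr_mono fun ω h => iA _ _ (fun e' he' => ?_) h
  by_cases h1 : e' = e
  · subst h1; simp
  · rw [Function.update_of_ne h1] at he' ⊢
    exact he'

lemma localOn_hcross' (a b c d : ℤ) : LocalOn (eRect a b c d) {ω | HCross ω a b c d} := by
  intro ω ω' h hω
  obtain ⟨u, v, hu, hv, huv⟩ := hω
  exact ⟨u, v, hu, hv, huv.congr fun e he _ => h e (mem_eRect.2 he)⟩

lemma incr_hcross' (a b c d : ℤ) : Incr {ω | HCross ω a b c d} := by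
  rintro ω ω' h ⟨u, v, hu, hv, huv⟩
  exact ⟨u, v, hu, hv, huv.mono le_rfl h⟩

/-- A crossing of a rectangle contains a crossing of a shorter one inside a taller one. -/
lemma hcross_sub {ω : Config} {a b c d a' b' c' d' : ℤ} (ha : a ≤ a') (hab : a' ≤ b')
    (hb : b' ≤ b) (hc : c' ≤ c) (hd : d ≤ d') (h : HCross ω a b c d) : HCross ω a' b' c' d' := by
  obtain ⟨u, v, hu, hv, huv⟩ := h
  obtain ⟨u', v', hu', hv', h1, -, -⟩ := huv.cross_x (a := a') (b := b') (by omega) (by omega) hab
  refine ⟨u', v', hu', hv', h1.mono_set ?_⟩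
  rintro w ⟨⟨h2, h3, h4, h5⟩, h6, h7⟩
  exact ⟨h6, h7, by omega, by omega⟩

private lemma sum_first (f : ℕ → ℝ) (hf : Antitone f) (h0 : ∀ k, 0 ≤ f k) (m x : ℕ) :
    ∑ i ∈ Finset.range m, (if i ≤ x then f (x - i) else 0) ≤ ∑ k ∈ Finset.range m, f k := by
  rcases Nat.eq_zero_or_pos m with rfl | hm
  · simp
  set y := min x (m - 1) with hy
  calc ∑ i ∈ Finset.range m, (if i ≤ x then f (x - i) else 0)
      = ∑ i ∈ (Finset.range m).filter (fun i => i ≤ x), f (x - i) := by
        rw [Finset.sum_filter]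
    _ = ∑ i ∈ Finset.range (y + 1), f (x - i) := by
        congr 1
        ext i
        simp only [Finset.mem_filter, Finset.mem_range]
        omega
    _ ≤ ∑ i ∈ Finset.range (y + 1), f (y - i) := by
        refine Finset.sum_le_sum fun i _ => hf ?_
        omega
    _ = ∑ i ∈ Finset.range (y + 1), f i := by
        have := Finset.sum_range_reflect f (y + 1)
        rw [← this]
        refine Finset.sum_congr rfl fun i hi => ?_
        congr 1
    _ ≤ ∑ k ∈ Finset.range m, f k := by
        refine Finset.sum_le_sum_of_subset_of_nonneg ?_ (fun i _ _ => h0 i)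
        intro i hi
        simp only [Finset.mem_range] at hi ⊢
        omega

theorem sigma_le {p : I} (hp : half ≤ p) : σ p ≤ p := by
  have h : (1 / 2 : ℝ) ≤ p := hp
  change (1 : ℝ) - p ≤ p
  linarith

/-- The averaged inequality at a fixed density. -/
theorem main_aux {q : I} (hq : half ≤ q) {m : ℕ} (hm : 1 ≤ m) :
    Pr q {ω | HCross ω 0 (16 * m) 0 (4 * m)} *
      (1 - Pr q {ω | HCross ω m (16 * m) (-m) (4 * m)}) ≤
      4 * avgArm q m ^ 2 *
        ∑ e ∈ eRect 0 (16 * m) 0 (4 * m), pivot q {ω | HCross ω 0 (16 * m) 0 (4 * m)} e := by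
  have hm0 : (0 : ℝ) < m := by exact_mod_cast hm
  set g : Set Config := {ω | HCross ω 0 (16 * m) 0 (4 * m)} with hg
  set F : Set Config := {ω | HCross ω m (16 * m) (-m) (4 * m)} with hF
  set s : Finset Edge := eRect 0 (16 * m) (-m) (4 * m) with hs
  set sg : Finset Edge := eRect 0 (16 * m) 0 (4 * m) with hsg
  set S : ℝ := ∑ k ∈ Finset.range m, arm q k with hS
  have hsub : sg ⊆ s := by
    intro e he
    rw [hsg, mem_eRect] at he
    rw [hs, mem_eRect]
    obtain ⟨h1, h2, h3, h4⟩ := he
    exact ⟨h1, h2, by omega, h4⟩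
  have hgl : LocalOn sg g := localOn_hcross' _ _ _ _
  have hgl' : LocalOn s g := hgl.mono hsub
  have hgi : Incr g := incr_hcross' _ _ _ _
  have hP0 : 0 ≤ Pr q g := Pr_nonneg
  -- the inequality for one corner
  have hone : ∀ i ∈ Finset.range m, ∀ j ∈ Finset.range m,
      Pr q g * (1 - Pr q F) ≤ ∑ e ∈ sg,
        (4 * ((if i ≤ e.1.toNat then arm q (e.1.toNat - i) else 0) * arm q j)) *
          pivot q g e := by
    intro i hi j hj
    rw [Finset.mem_range] at hi hj
    set A : Set Config := {ω | HCross ω i (16 * m) (-j) (4 * m)} with hA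
    have hAs : eRect (i : ℤ) (16 * m) (-j) (4 * m) ⊆ s := by
      intro e he
      rw [mem_eRect] at he
      rw [hs, mem_eRect]
      obtain ⟨h1, h2, h3, h4⟩ := he
      exact ⟨by omega, h2, by omega, h4⟩
    have hAl : LocalOn s A := (localOn_hcross' _ _ _ _).mono hAs
    have hBA : g ⊆ A := fun ω h => hcross_sub (by omega) (by omega) le_rfl (by omega) le_rfl h
    have hAF : A ⊆ F := fun ω h => hcross_sub (by omega) (by omega) le_rfl (by omega) le_rfl h
    have h1 := osss_two (p := q) hAl hgl' hgi hBA (rectRule (i : ℤ) (16 * m) (-j) (4 * m))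
      (fun O C e he => ⟨hAs (rectRule_mem O C e he).1, (rectRule_mem O C e he).2⟩)
      (fun ω ω' h hω => rectRule_det (by omega) (by omega) hAs ω ω' h hω)
    have h2 : Pr q g * (1 - Pr q F) ≤ Pr q g * (1 - Pr q A) :=
      mul_le_mul_of_nonneg_left (by linarith [Pr_mono (p := q) hAF]) hP0
    refine h2.trans (h1.trans ?_)
    rw [← Finset.sum_subset hsub (fun e _ he => by rw [pivot_zero hgl he, mul_zero])]
    refine Finset.sum_le_sum fun e he => mul_le_mul_of_nonneg_right ?_ (pivot_nonneg hgi e)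
    have he' : 0 ≤ e.1 ∧ e.1 ≤ 16 * m ∧ 0 ≤ e.2.1 ∧ e.2.1 ≤ 4 * m := mem_eRect.1 he
    by_cases hie : i ≤ e.1.toNat
    · rw [if_pos hie]
      have hmem : e ∈ eRect (i : ℤ) (16 * m) (-j) (4 * m) :=
        mem_eRect.2 ⟨by simp only [src]; omega, by simp only [src]; omega,
          by simp only [src]; omega, by simp only [src]; omega⟩
      refine (rectRule_reveal q s.card hmem).trans ?_
      have e1 : (e.1 - (i : ℤ)).toNat = e.1.toNat - i := by omega
      rw [e1]
      refine mul_le_mul_of_nonneg_left (mul_le_mul_of_nonneg_left ?_ arm_nonneg) (by norm_num)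
      refine (arm_antitone (r := j) (by omega)).trans (arm_mono_param j (sigma_le hq))
    · rw [if_neg hie]
      have hne : e ∉ eRect (i : ℤ) (16 * m) (-j) (4 * m) := by
        intro h
        have : (i : ℤ) ≤ e.1 := (mem_eRect.1 h).1
        omega
      have : {ω : Config | e ∈ queried (rectRule (i : ℤ) (16 * m) (-j) (4 * m)) ω s.card} = ∅ := by
        ext ω
        simp only [Set.mem_ofPred_eq, Set.mem_empty_iff_false, iff_false]
        exact rectRule_not_queried ω _ hne
      rw [this]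
      simp [Pr]
  -- sum over the corners
  have hsum : (m : ℝ) ^ 2 * (Pr q g * (1 - Pr q F)) ≤
      ∑ e ∈ sg, (4 * (S * S)) * pivot q g e := by
    calc (m : ℝ) ^ 2 * (Pr q g * (1 - Pr q F))
        = ∑ i ∈ Finset.range m, ∑ j ∈ Finset.range m, Pr q g * (1 - Pr q F) := by
          simp only [Finset.sum_const, Finset.card_range, nsmul_eq_mul]; ring
      _ ≤ ∑ i ∈ Finset.range m, ∑ j ∈ Finset.range m, ∑ e ∈ sg,
        (4 * ((if i ≤ e.1.toNat then arm q (e.1.toNat - i) else 0) * arm q j)) *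
          pivot q g e := Finset.sum_le_sum fun i hi => Finset.sum_le_sum fun j hj => hone i hi j hj
      _ = ∑ e ∈ sg, (4 * ((∑ i ∈ Finset.range m,
            (if i ≤ e.1.toNat then arm q (e.1.toNat - i) else 0)) * S)) * pivot q g e := by
          have : ∀ i ∈ Finset.range m, ∑ j ∈ Finset.range m, ∑ e ∈ sg,
              (4 * ((if i ≤ e.1.toNat then arm q (e.1.toNat - i) else 0) * arm q j)) *
              pivot q g e = ∑ e ∈ sg, (4 * ((if i ≤ e.1.toNat then arm q (e.1.toNat - i) else 0)
                * S)) * pivot q g e := by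
            intro i _
            rw [Finset.sum_comm]
            refine Finset.sum_congr rfl fun e _ => ?_
            rw [hS, Finset.mul_sum, Finset.mul_sum, Finset.sum_mul]
          rw [Finset.sum_congr rfl this, Finset.sum_comm]
          refine Finset.sum_congr rfl fun e _ => ?_
          rw [Finset.sum_mul, Finset.mul_sum, Finset.sum_mul]
      _ ≤ ∑ e ∈ sg, (4 * (S * S)) * pivot q g e := by
          refine Finset.sum_le_sum fun e _ => mul_le_mul_of_nonneg_right ?_ (pivot_nonneg hgi e)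
          refine mul_le_mul_of_nonneg_left (mul_le_mul_of_nonneg_right ?_ ?_) (by norm_num)
          · exact sum_first (fun k => arm q k) (fun a b h => arm_antitone h)
              (fun k => arm_nonneg) m e.1.toNat
          · exact Finset.sum_nonneg fun k _ => arm_nonneg
  rw [← Finset.mul_sum] at hsum
  have hav : avgArm q m = S / m := rfl
  rw [hav, div_pow]
  have h2 : (4 : ℝ) * (S ^ 2 / (m : ℝ) ^ 2) * ∑ e ∈ sg, pivot q g e =
      (4 * (S * S) * ∑ e ∈ sg, pivot q g e) / (m : ℝ) ^ 2 := by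
    field_simp
  rw [h2, le_div_iff₀ (by positivity)]
  linarith

theorem avgArm_nonneg (p : I) (m : ℕ) : 0 ≤ avgArm p m :=
  div_nonneg (Finset.sum_nonneg fun k _ => arm_nonneg) (Nat.cast_nonneg m)

theorem avgArm_mono {p q : I} (h : p ≤ q) (m : ℕ) : avgArm p m ≤ avgArm q m :=
  div_le_div_of_nonneg_right (Finset.sum_le_sum fun k _ => arm_mono_param k h) (Nat.cast_nonneg m)

theorem main_ineq : ∃ c > (0 : ℝ), ∀ p : I, half ≤ p → ∀ m : ℕ, 1 ≤ m →
    c * ((p : ℝ) - 1 / 2) * (1 - Pr p {ω | HCross ω m (16 * m) (-m) (4 * m)}) ≤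
      avgArm p m ^ 2 := by
  obtain ⟨c₀, hc₀, hrsw⟩ := rsw
  refine ⟨c₀ / 4, by positivity, fun p hp m hm => ?_⟩
  set g : Set Config := {ω | HCross ω 0 (16 * m) 0 (4 * m)} with hg
  set F : Set Config := {ω | HCross ω m (16 * m) (-m) (4 * m)} with hF
  set sg : Finset Edge := eRect 0 (16 * m) 0 (4 * m) with hsg
  have hgl : LocalOn sg g := localOn_hcross' _ _ _ _
  have hgi : Incr g := incr_hcross' _ _ _ _
  have hFl : LocalOn (eRect m (16 * m) (-m) (4 * m)) F := localOn_hcross' _ _ _ _
  have hFi : Incr F := incr_hcross' _ _ _ _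
  have hg0 : c₀ ≤ Pr half g := by
    have := hrsw (4 * m) (by omega)
    have e : (4 * ((4 * m : ℕ) : ℤ)) = 16 * m := by push_cast; ring
    rw [e] at this
    simpa [hg] using this
  have hhp : (1 / 2 : ℝ) ≤ p := hp
  rcases eq_or_lt_of_le hhp with heq | hlt
  · rw [← heq]
    simp only [sub_self, mul_zero, zero_mul]
    positivity
  -- lower bound for the derivative
  set D : ℝ := c₀ * (1 - Pr p F) with hD
  have hD0 : 0 ≤ D := mul_nonneg hc₀.le (by linarith [Pr_le_one (p := p) (A := F)])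
  have hder : ∀ q : I, half ≤ q → q ≤ p → D ≤ 4 * avgArm p m ^ 2 * ∑ e ∈ sg, pivot q g e := by
    intro q hq hqp
    have h1 := main_aux hq hm
    have h2 : D ≤ Pr q g * (1 - Pr q F) := by
      refine mul_le_mul (hg0.trans (Pr_mono_param hgl hgi hq)) ?_
        (by linarith [Pr_le_one (p := p) (A := F)]) Pr_nonneg
      linarith [Pr_mono_param hFl hFi hqp]
    refine h2.trans (h1.trans ?_)
    refine mul_le_mul_of_nonneg_right ?_ (Finset.sum_nonneg fun e _ => pivot_nonneg hgi e)
    have h3 := avgArm_mono hqp m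
    have h4 := avgArm_nonneg q m
    nlinarith
  by_contra hcon
  push Not at hcon
  -- mean value theorem
  obtain ⟨x, hx, hxd⟩ := exists_hasDerivAt_eq_slope (f := PrR sg g)
    (f' := fun x => if h : x ∈ Set.Icc (0 : ℝ) 1 then ∑ e ∈ sg, pivot (⟨x, h⟩ : I) g e else 0)
    (a := 1 / 2) (b := (p : ℝ)) hlt
    (fun x hx => by
      have hx' : x ∈ Set.Icc (0 : ℝ) 1 := ⟨by linarith [hx.1], hx.2.trans p.2.2⟩
      exact (hasDerivAt_PrR hgl (⟨x, hx'⟩ : I)).continuousAt.continuousWithinAt)
    (fun x hx => by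
      have hx' : x ∈ Set.Icc (0 : ℝ) 1 := ⟨by linarith [hx.1], hx.2.le.trans p.2.2⟩
      simp only [dif_pos hx']
      exact hasDerivAt_PrR hgl (⟨x, hx'⟩ : I))
  have hx' : x ∈ Set.Icc (0 : ℝ) 1 := ⟨by linarith [hx.1], hx.2.le.trans p.2.2⟩
  simp only [dif_pos hx'] at hxd
  have h1 := hder ⟨x, hx'⟩ (by change (1 / 2 : ℝ) ≤ x; exact hx.1.le)
    (by change x ≤ (p : ℝ); exact hx.2.le)
  rw [hxd] at h1
  have e1 : PrR sg g (p : ℝ) = Pr p g := (Pr_eq_PrR hgl p).symm
  have e2 : PrR sg g (1 / 2) = Pr half g := (Pr_eq_PrR hgl half).symm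
  rw [e1, e2] at h1
  have hpos : 0 < (p : ℝ) - 1 / 2 := by linarith
  rw [← mul_div_assoc, le_div_iff₀ hpos] at h1
  have h2 : Pr p g - Pr half g ≤ 1 := by
    linarith [Pr_le_one (p := p) (A := g), Pr_nonneg (p := half) (A := g)]
  have h3 : 4 * avgArm p m ^ 2 * (Pr p g - Pr half g) ≤ 4 * avgArm p m ^ 2 * 1 :=
    mul_le_mul_of_nonneg_left h2 (by positivity)
  have h4 : c₀ / 4 * ((p : ℝ) - 1 / 2) * (1 - Pr p F) = D * ((p : ℝ) - 1 / 2) / 4 := by
    rw [hD]; ring
  rw [h4] at hcon
  linarith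

end Pool.Agent.H57.LF
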