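import Pool.Agent.H57.LF.Defs
import Pool.Agent.H89.Perc.FKG

/-!
# Exploration of the left-right crossing of a rectangle from its lower left corner
-/

open MeasureTheory ProbabilityTheory unitInterval

namespace Pool.Agent.H57.LF

open Pool.Agent.H89.Perc

private lemma expl_succ' (R : Rule) (ω : Config) (n : ℕ) :
    expl R ω (n + 1) = explStep R ω (expl R ω n) := by
  simp only [expl, Function.iterate_succ_apply']

private lemma expl_inv (R : Rule) (ω : Config) (n : ℕ) :
    (∀ e ∈ (expl R ω n).1, ω e = true) ∧ (∀ e ∈ (expl R ω n).2, ω e = false) := by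
  induction n with
  | zero => simp [expl]
  | succ n ih =>
    rw [expl_succ']
    unfold explStep
    cases h : R (expl R ω n).1 (expl R ω n).2 with
    | none => simpa using ih
    | some e =>
      by_cases hω : ω e = true
      · simp only [hω, if_true, Finset.mem_insert]
        exact ⟨fun e' he' => he'.elim (fun h => h ▸ hω) (ih.1 e'), ih.2⟩
      · simp only [if_neg hω, Finset.mem_insert]
        exact ⟨ih.1, fun e' he' => he'.elim (fun h => h ▸ by simpa using hω) (ih.2 e')⟩

private lemma expl_subset {R : Rule} {s : Finset Edge}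
    (hR : ∀ O C e, R O C = some e → e ∈ s ∧ e ∉ O ∧ e ∉ C) (ω : Config) (n : ℕ) :
    queried R ω n ⊆ s := by
  induction n with
  | zero => simp [queried, expl]
  | succ n ih =>
    rw [queried] at ih ⊢
    rw [expl_succ']
    unfold explStep
    cases h : R (expl R ω n).1 (expl R ω n).2 with
    | none => simpa using ih
    | some e =>
      have he := (hR _ _ _ h).1
      by_cases hω : ω e = true
      · simp only [hω, if_true]
        rw [Finset.insert_union]
        exact Finset.insert_subset he ih
      · simp only [if_neg hω]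
        rw [Finset.union_insert]
        exact Finset.insert_subset he ih

private lemma expl_card {R : Rule} {s : Finset Edge}
    (hR : ∀ O C e, R O C = some e → e ∈ s ∧ e ∉ O ∧ e ∉ C) (ω : Config) (n : ℕ) :
    (queried R ω n).card = n ∨ R (expl R ω n).1 (expl R ω n).2 = none := by
  induction n with
  | zero => left; simp [queried, expl]
  | succ n ih =>
    cases h : R (expl R ω n).1 (expl R ω n).2 with
    | none =>
      right
      have : expl R ω (n + 1) = expl R ω n := by
        rw [expl_succ']; unfold explStep; rw [h]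
      rw [this, h]
    | some e =>
      left
      have h1 := ih.resolve_right (by rw [h]; simp)
      obtain ⟨_, he1, he2⟩ := hR _ _ _ h
      have h2 : queried R ω (n + 1) = insert e (queried R ω n) := by
        rw [queried, expl_succ', queried]
        unfold explStep
        simp only [h]
        by_cases hω : ω e = true
        · simp only [hω, if_true]
          rw [Finset.insert_union]
        · simp only [if_neg hω]
          rw [Finset.union_insert]
      rw [h2, Finset.card_insert_of_notMem, h1]
      rw [queried, Finset.mem_union]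
      tauto

private lemma expl_stop {R : Rule} {s : Finset Edge}
    (hR : ∀ O C e, R O C = some e → e ∈ s ∧ e ∉ O ∧ e ∉ C) (ω : Config) :
    R (expl R ω s.card).1 (expl R ω s.card).2 = none := by
  rcases expl_card hR ω s.card with h | h
  · have h1 := Finset.eq_of_subset_of_card_le (expl_subset hR ω s.card) h.ge
    cases h2 : R (expl R ω s.card).1 (expl R ω s.card).2 with
    | none => rfl
    | some e =>
      exfalso
      obtain ⟨h3, h4, h5⟩ := hR _ _ _ h2
      rw [← h1, queried, Finset.mem_union] at h3
      tauto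
  · exact h
private lemma exists_step_of_queried (R : Rule) (ω : Config) (n : ℕ) {e : Edge}
    (he : e ∈ queried R ω n) :
    ∃ m, R (expl R ω m).1 (expl R ω m).2 = some e := by
  induction n with
  | zero => simp [queried, expl] at he
  | succ n ih =>
    by_cases h : e ∈ queried R ω n
    · exact ih h
    refine ⟨n, ?_⟩
    rw [queried, expl_succ'] at he
    unfold explStep at he
    rw [queried] at h
    cases h' : R (expl R ω n).1 (expl R ω n).2 with
    | none => simp only [h'] at he; exact absurd he h
    | some e' =>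
      simp only [h'] at he
      by_cases hω : ω e' = true
      · simp only [hω, if_true, Finset.mem_union, Finset.mem_insert] at he h
        have : e = e' := by tauto
        rw [this]
      · simp only [if_neg hω, Finset.mem_union, Finset.mem_insert] at he h
        have : e = e' := by tauto
        rw [this]

/-- Vertices of the rectangle joined to its left side by edges in `O`. -/
def reachL (a b c d : ℤ) (O : Finset Edge) : Set Vert :=
  {u | ∃ w : Vert, w.1 = a ∧ Conn (fun e => decide (e ∈ O)) (rect a b c d) w u}

/-- Faces joined to the bottom row of faces by dual edges crossing edges in `C`. -/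
def reachB (a b c d : ℤ) (C : Finset Edge) : Set Vert :=
  {φ | ∃ ψ : Vert, ψ.2 = c - 1 ∧
    Conn (fun e => decide (crossed e ∈ C)) (rect a (b - 1) (c - 1) d) ψ φ}

/-- Edges that may be queried next. -/
def RCand (a b c d : ℤ) (O C : Finset Edge) (e : Edge) : Prop :=
  src e ∈ rect a b c d ∧ tgt e ∈ rect a b c d ∧ e ∉ O ∧ e ∉ C ∧
    (src e ∈ reachL a b c d O ∨ tgt e ∈ reachL a b c d O) ∧
    ∃ φ, IsFace φ e ∧ φ ∈ reachB a b c d C

/-- The exploration rule. -/
noncomputable def rectRule (a b c d : ℤ) : Rule := fun O C => by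
  classical exact if h : ∃ e, RCand a b c d O C e then some h.choose else none

theorem rectRule_spec {a b c d : ℤ} {O C : Finset Edge} {e : Edge}
    (h : rectRule a b c d O C = some e) : RCand a b c d O C e := by
  unfold rectRule at h
  split_ifs at h with h'
  · rw [← Option.some.inj h]; exact h'.choose_spec

theorem rectRule_none {a b c d : ℤ} {O C : Finset Edge} (h : rectRule a b c d O C = none)
    (e : Edge) : ¬ RCand a b c d O C e := by
  intro he
  unfold rectRule at h
  rw [dif_pos ⟨e, he⟩] at h
  exact absurd h (by simp)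

theorem rectRule_mem {a b c d : ℤ} (O C : Finset Edge) (e : Edge)
    (h : rectRule a b c d O C = some e) : e ∈ eRect a b c d ∧ e ∉ O ∧ e ∉ C := by
  obtain ⟨h1, _, h2, h3, _⟩ := rectRule_spec h
  exact ⟨mem_eRect.2 h1, h2, h3⟩

/-- The exploration determines the crossing. -/
theorem rectRule_det {a b c d : ℤ} (hab : a < b) (hcd : c ≤ d) {s : Finset Edge}
    (hs : eRect a b c d ⊆ s) (ω ω' : Config)
    (h : ∀ e ∈ queried (rectRule a b c d) ω s.card, ω e = ω' e)
    (hω : HCross ω a b c d) : HCross ω' a b c d := by
  classical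
  set O := (expl (rectRule a b c d) ω s.card).1 with hOdef
  set C := (expl (rectRule a b c d) ω s.card).2 with hCdef
  have hstop := expl_stop (s := s) (fun O C e he =>
    ⟨hs (rectRule_mem O C e he).1, (rectRule_mem O C e he).2⟩) ω
  have hcand : ∀ e, ¬ RCand a b c d O C e := rectRule_none hstop
  obtain ⟨hO, hC⟩ := expl_inv (rectRule a b c d) ω s.card
  rw [← hOdef] at hO
  rw [← hCdef] at hC
  -- the completed configuration
  set ω₁ : Config := fun e => if e ∈ O then true else if e ∈ C then false else
    if src e ∈ rect a b c d ∧ tgt e ∈ rect a b c d ∧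
      (src e ∈ reachL a b c d O ∨ tgt e ∈ reachL a b c d O) then false else true with hω₁
  rcases hcross_or_dual_vcross (ω := ω₁) hab hcd with h1 | h1
  · -- the left cluster reaches the right side
    obtain ⟨u, v, hu, hv, huv⟩ := h1
    have hL : v ∈ reachL a b c d O := by
      refine huv.induction_right (P := fun v => v ∈ reachL a b c d O)
        ⟨u, hu, Conn.refl huv.mem_left⟩ ?_
      rintro x y - ⟨hx, hy, e, he, heo⟩ ⟨w, hw, hwx⟩
      have hxe : src e ∈ rect a b c d ∧ tgt e ∈ rect a b c d ∧
          (src e ∈ reachL a b c d O ∨ tgt e ∈ reachL a b c d O) := by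
        rcases he with ⟨e1, e2⟩ | ⟨e1, e2⟩
        · subst e1 e2
          exact ⟨hx, hy, Or.inl ⟨w, hw, hwx⟩⟩
        · subst e1 e2
          exact ⟨hy, hx, Or.inr ⟨w, hw, hwx⟩⟩
      have heO : e ∈ O := by
        by_contra hn
        simp only [hω₁, if_neg hn] at heo
        by_cases hC' : e ∈ C
        · simp [hC'] at heo
        · rw [if_neg hC', if_pos hxe] at heo
          exact absurd heo (by decide)
      exact ⟨w, hw, hwx.tail ⟨hx, hy, e, he, by simpa using heO⟩⟩
    obtain ⟨w, hw, hwv⟩ := hL
    refine ⟨w, v, hw, hv, hwv.mono le_rfl fun e he => ?_⟩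
    have he' : e ∈ O := by simpa using he
    rw [← h e (by rw [queried]; exact Finset.mem_union_left _ he')]
    exact hO e he'
  · -- the dual cluster of the bottom reaches the top
    exfalso
    obtain ⟨u, v, hu, hv, huv⟩ := h1
    have hB : v ∈ reachB a b c d C := by
      refine huv.induction_right (P := fun v => v ∈ reachB a b c d C)
        ⟨u, hu, Conn.refl huv.mem_left⟩ ?_
      rintro x y - ⟨hx, hy, e, he, heo⟩ ⟨w, hw, hwx⟩
      have heC : crossed e ∈ C := by
        by_contra hn
        have h2 : ω₁ (crossed e) = false := by simpa [dual] using heo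
        simp only [hω₁] at h2
        by_cases hO' : crossed e ∈ O
        · simp [hO'] at h2
        · rw [if_neg hO', if_neg hn] at h2
          by_cases h3 : src (crossed e) ∈ rect a b c d ∧ tgt (crossed e) ∈ rect a b c d ∧
            (src (crossed e) ∈ reachL a b c d O ∨ tgt (crossed e) ∈ reachL a b c d O)
          · exact hcand (crossed e) ⟨h3.1, h3.2.1, hO', hn, h3.2.2, x,
              (isFace_crossed he).1, w, hw, hwx⟩
          · rw [if_neg h3] at h2
            exact absurd h2 (by decide)
      exact ⟨w, hw, hwx.tail ⟨hx, hy, e, he, by simpa using heC⟩⟩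
    obtain ⟨w, hw, hwv⟩ := hB
    refine not_hcross_and_dual_vcross hab hω ⟨w, v, hw, hv, hwv.mono le_rfl fun e he => ?_⟩
    have he' : crossed e ∈ C := by simpa using he
    simp [dual, hC _ he']

/-- Queried edges have an open arm to the left side and a dual arm to the bottom side. -/
theorem rectRule_reveal {a b c d : ℤ} (q : I) (n : ℕ) {e : Edge} (he : e ∈ eRect a b c d) :
    Pr q {ω | e ∈ queried (rectRule a b c d) ω n} ≤
      4 * (arm q (e.1 - a).toNat * arm (σ q) (e.2.1 - c).toNat) := by
  set k := (e.1 - a).toNat with hk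
  set l := (e.2.1 - c).toNat with hl
  have her : a ≤ e.1 ∧ e.1 ≤ b ∧ c ≤ e.2.1 ∧ e.2.1 ≤ d := mem_eRect.1 he
  have hk' : (k : ℤ) = e.1 - a := by rw [hk]; omega
  have hl' : (l : ℤ) = e.2.1 - c := by rw [hl]; omega
  set φ' : Vert := if e.2.2 then (e.1 - 1, e.2.1) else (e.1, e.2.1 - 1) with hφ'
  have hev : ∀ u φ : Vert, Pr q (Arm u k ∩ {ω | dual ω ∈ Arm φ l}) ≤
      arm q k * arm (σ q) l := by
    intro u φ
    refine (fkg_mixed (localOn_arm u k) (localOn_arm φ l).dual' (incr_arm u k)
      (incr_arm φ l).dual_compl).trans ?_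
    rw [Pr_arm, Pr_dual_arm]
  have hsub : {ω | e ∈ queried (rectRule a b c d) ω n} ⊆
      ((Arm (src e) k ∩ {ω | dual ω ∈ Arm (src e) l}) ∪
        (Arm (src e) k ∩ {ω | dual ω ∈ Arm φ' l})) ∪
      ((Arm (tgt e) k ∩ {ω | dual ω ∈ Arm (src e) l}) ∪
        (Arm (tgt e) k ∩ {ω | dual ω ∈ Arm φ' l})) := by
    intro ω hω
    obtain ⟨m, hm⟩ := exists_step_of_queried _ _ _ hω
    obtain ⟨_, _, _, _, hV, φ, hφ, hφr⟩ := rectRule_spec hm
    obtain ⟨hO, hC⟩ := expl_inv (rectRule a b c d) ω m
    have hArm : ∀ u : Vert, u ∈ reachL a b c d (expl (rectRule a b c d) ω m).1 →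
        a + k ≤ u.1 → ω ∈ Arm u k := by
      rintro u ⟨w, hw, hc⟩ h1
      have hc' : Conn ω (rect a b c d) u w :=
        (hc.mono le_rfl fun e' he' => hO e' (by simpa using he')).symm
      refine hc'.mem_arm (Or.inl ?_)
      rw [hw]
      rcases abs_cases (a - u.1) with h5 | h5 <;> omega
    have hDual : ∀ φ : Vert, φ ∈ reachB a b c d (expl (rectRule a b c d) ω m).2 →
        c - 1 + l ≤ φ.2 → dual ω ∈ Arm φ l := by
      rintro u ⟨w, hw, hc⟩ h1
      have hc' : Conn (dual ω) (rect a (b - 1) (c - 1) d) u w :=
        (hc.mono le_rfl fun e' he' => by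
          simp only [decide_eq_true_eq] at he'
          simp [dual, hC _ he']).symm
      refine hc'.mem_arm (Or.inr ?_)
      rw [hw]
      rcases abs_cases (c - 1 - u.2) with h5 | h5 <;> omega
    have hsrcA : src e ∈ reachL a b c d (expl (rectRule a b c d) ω m).1 → ω ∈ Arm (src e) k :=
      fun h => hArm _ h (by simp only [src]; omega)
    have htgtA : tgt e ∈ reachL a b c d (expl (rectRule a b c d) ω m).1 → ω ∈ Arm (tgt e) k :=
      fun h => by
        apply hArm _ h; unfold tgt; split_ifs <;> simp only <;> omega
    have hD1 : src e ∈ reachB a b c d (expl (rectRule a b c d) ω m).2 →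
        dual ω ∈ Arm (src e) l := fun h => hDual _ h (by simp only [src]; omega)
    have hD2 : φ' ∈ reachB a b c d (expl (rectRule a b c d) ω m).2 → dual ω ∈ Arm φ' l :=
      fun h => by
        apply hDual _ h; rw [hφ']; split_ifs <;> simp only <;> omega
    rcases hφ with hφ | hφ
    · subst hφ
      rcases hV with hV | hV
      · exact Or.inl (Or.inl ⟨hsrcA hV, hD1 hφr⟩)
      · exact Or.inr (Or.inl ⟨htgtA hV, hD1 hφr⟩)
    · rw [← hφ'] at hφ
      subst hφ
      rcases hV with hV | hV
      · exact Or.inl (Or.inr ⟨hsrcA hV, hD2 hφr⟩)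
      · exact Or.inr (Or.inr ⟨htgtA hV, hD2 hφr⟩)
  refine (Pr_mono hsub).trans ?_
  refine (Pr_union_le).trans ?_
  have ha := hev (src e) (src e)
  have hb := hev (src e) φ'
  have hc := hev (tgt e) (src e)
  have hd := hev (tgt e) φ'
  have hl1 := Pr_union_le (p := q) (A := Arm (src e) k ∩ {ω | dual ω ∈ Arm (src e) l})
    (B := Arm (src e) k ∩ {ω | dual ω ∈ Arm φ' l})
  have hl2 := Pr_union_le (p := q) (A := Arm (tgt e) k ∩ {ω | dual ω ∈ Arm (src e) l})
    (B := Arm (tgt e) k ∩ {ω | dual ω ∈ Arm φ' l})
  linarith

/-- Edges outside the rectangle are never queried. -/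
theorem rectRule_not_queried {a b c d : ℤ} (ω : Config) (n : ℕ) {e : Edge}
    (he : e ∉ eRect a b c d) : e ∉ queried (rectRule a b c d) ω n := fun h =>
  he (expl_subset (s := eRect a b c d) rectRule_mem ω n h)

end Pool.Agent.H57.LF
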